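import Pool.Agent.W323.SC.Stm

set_option autoImplicit false
open Finset
open scoped Classical

namespace Pool.Agent.W181.SC

open Pool.Agent.W323.SC

variable {α ι κ : Type}

theorem n1_le (a : α → ι) (b : α → κ) (U : Finset α) : n1 a b U ≤ U.card :=
  Finset.card_filter_le _ _

theorem dj_symm (a : α → ι) (b : α → κ) {p q : α} (h : dj a b p q) : dj a b q p :=
  ⟨h.1.symm, h.2.symm⟩

theorem dj_ne (a : α → ι) (b : α → κ) {p q : α} (h : dj a b p q) : p ≠ q := by
  rintro rfl; exact h.1 rfl

theorem mem_prs (a : α → ι) (b : α → κ) (U : Finset α) {p q : α} (hp : p ∈ U) (hq : q ∈ U)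
    (h : dj a b p q) : ({p, q} : Finset α) ∈ prs a b U := by
  unfold prs
  rw [Finset.mem_filter, Finset.mem_powersetCard]
  refine ⟨⟨?_, Finset.card_pair (dj_ne a b h)⟩, p, by simp, q, by simp, h⟩
  intro x hx
  simp only [Finset.mem_insert, Finset.mem_singleton] at hx
  rcases hx with rfl | rfl <;> assumption

/-- cross pairs between `R` and `U \ R`. -/
theorem cross_le (a : α → ι) (b : α → κ) (U R : Finset α) (hR : R ⊆ U) :
    ∑ q ∈ U \ R, (R.filter (fun p => dj a b q p)).card ≤ (prs a b U).card := by
  rw [← Finset.card_sigma]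
  refine Finset.card_le_card_of_injOn (fun x => ({x.1, x.2} : Finset α)) ?_ ?_
  · rintro ⟨q, p⟩ hx
    simp only [Finset.coe_sigma, Set.mem_sigma_iff, Finset.mem_coe, Finset.mem_sdiff,
      Finset.mem_filter] at hx
    exact mem_prs a b U hx.1.1 (hR hx.2.1) hx.2.2
  · rintro ⟨q, p⟩ hx ⟨q', p'⟩ hx' h
    simp only [Finset.coe_sigma, Set.mem_sigma_iff, Finset.mem_coe, Finset.mem_sdiff,
      Finset.mem_filter] at hx hx'
    simp only at h
    have h1 : q ∈ ({q', p'} : Finset α) := by rw [← h]; simp
    have h2 : p ∈ ({q', p'} : Finset α) := by rw [← h]; simp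
    simp only [Finset.mem_insert, Finset.mem_singleton] at h1 h2
    have e1 : q = q' := by
      rcases h1 with h1 | h1
      · exact h1
      · exact absurd (h1 ▸ hx'.2.1) hx.1.2
    have e2 : p = p' := by
      rcases h2 with h2 | h2
      · exact absurd (h2 ▸ hx.2.1) hx'.1.2
      · exact h2
    subst e1; subst e2; rfl

theorem same_col_le (a : α → ι) (b : α → κ) (hI : Inj a b) (U : Finset α) (i : ι) (c : κ) :
    ((U.filter (fun p => a p = i)).filter (fun p => b p = c)).card ≤ 1 := by
  rw [Finset.card_le_one]
  intro x hx y hy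
  simp only [Finset.mem_filter] at hx hy
  exact hI x y (hx.1.2.trans hy.1.2.symm) (hx.2.trans hy.2.symm)

theorem row_count (a : α → ι) (b : α → κ) (U : Finset α) (i : ι) (q : α)
    (hq : a q ≠ i) :
    ((U.filter (fun p => a p = i)).filter (fun p => dj a b q p)).card +
      ((U.filter (fun p => a p = i)).filter (fun p => b p = b q)).card =
      (U.filter (fun p => a p = i)).card := by
  rw [← Finset.card_filter_add_card_filter_not (s := U.filter (fun p => a p = i))
    (fun p => b p = b q), add_comm]
  congr 2
  ext x
  simp only [Finset.mem_filter, dj]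
  constructor
  · rintro ⟨h, h1, h2⟩
    exact ⟨h, fun h' => h2 h'.symm⟩
  · rintro ⟨h, h1⟩
    exact ⟨h, fun h' => hq (h'.trans h.2), fun h' => h1 h'.symm⟩

theorem rowcase (a : α → ι) (b : α → κ) (hI : Inj a b) (U : Finset α) (hU : 6 ≤ U.card) (i : ι)
    (h3 : 3 ≤ (U.filter (fun p => a p = i)).card) :
    n1 a b U ≤ (prs a b U).card + spl a b U := by
  set R := U.filter (fun p => a p = i) with hRdef
  have hRU : R ⊆ U := Finset.filter_subset _ _
  have hout : ∀ q ∈ U \ R, a q ≠ i := by
    intro q hq h
    rw [Finset.mem_sdiff, hRdef, Finset.mem_filter] at hq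
    exact hq.2 ⟨hq.1, h⟩
  have hcard : (U \ R).card + R.card = U.card := Finset.card_sdiff_add_card_eq_card hRU
  have hge : ∀ q ∈ U \ R, R.card - 1 ≤ (R.filter (fun p => dj a b q p)).card := by
    intro q hq
    have h1 := row_count a b U i q (hout q hq)
    have h2 := same_col_le a b hI U i (b q)
    rw [← hRdef] at h1 h2
    omega
  have hcross := cross_le a b U R hRU
  have hprs : (U \ R).card * (R.card - 1) ≤ (prs a b U).card := by
    refine le_trans ?_ hcross
    rw [← smul_eq_mul]
    exact Finset.card_nsmul_le_sum _ _ _ hge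
  rcases Nat.lt_or_ge (U \ R).card 2 with hs | hs
  · have hs' : (U \ R).card = 0 ∨ (U \ R).card = 1 := by omega
    rcases hs' with hs' | hs'
    · have h0 : n1 a b U = 0 := by
        unfold n1
        rw [Finset.card_eq_zero, Finset.filter_eq_empty_iff]
        rintro x hx ⟨p, hp, q, hq, hpq⟩
        rw [Finset.card_eq_zero, Finset.sdiff_eq_empty_iff_subset] at hs'
        have hp' := hs' (Finset.mem_of_mem_erase hp)
        have hq' := hs' (Finset.mem_of_mem_erase hq)
        rw [hRdef, Finset.mem_filter] at hp' hq'
        exact hpq.1 (hp'.2.trans hq'.2.symm)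
      omega
    · obtain ⟨q, hq⟩ := Finset.card_eq_one.1 hs'
      have hqm : q ∈ U \ R := by rw [hq]; simp
      have hqU : q ∈ U := (Finset.mem_sdiff.1 hqm).1
      have hqR : q ∉ R := (Finset.mem_sdiff.1 hqm).2
      have hn1 : n1 a b U ≤ R.card := by
        unfold n1
        apply Finset.card_le_card
        intro x hx
        rw [Finset.mem_filter] at hx
        by_contra hxR
        have hx' : x ∈ U \ R := Finset.mem_sdiff.2 ⟨hx.1, hxR⟩
        rw [hq, Finset.mem_singleton] at hx'
        subst hx'
        obtain ⟨u, hu, v, hv, huv⟩ := hx.2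
        have key : ∀ z ∈ U.erase x, a z = i := by
          intro z hz
          rw [Finset.mem_erase] at hz
          by_contra hne
          have : z ∈ U \ R := by
            rw [Finset.mem_sdiff, hRdef, Finset.mem_filter]
            exact ⟨hz.2, fun h => hne h.2⟩
          rw [hq, Finset.mem_singleton] at this
          exact hz.1 this
        exact huv.1 ((key u hu).trans (key v hv).symm)
      have hcnt := row_count a b U i q (hout q hqm)
      rw [← hRdef] at hcnt
      have hcr : (R.filter (fun p => dj a b q p)).card ≤ (prs a b U).card := by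
        refine le_trans ?_ hcross
        rw [hq, Finset.sum_singleton]
      rcases Finset.eq_empty_or_nonempty (R.filter (fun p => b p = b q)) with he | ⟨c0, hc0⟩
      · rw [he, Finset.card_empty] at hcnt
        omega
      · have hle := same_col_le a b hI U i (b q)
        rw [← hRdef] at hle
        rw [Finset.mem_filter] at hc0
        have hspl : 1 ≤ spl a b U := by
          unfold spl
          rw [Nat.one_le_iff_ne_zero, ← Nat.pos_iff_ne_zero, Finset.card_pos]
          have hsd : U \ R.erase c0 = {c0, q} := by
            ext z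
            simp only [Finset.mem_sdiff, Finset.mem_erase, Finset.mem_insert,
              Finset.mem_singleton]
            constructor
            · rintro ⟨hz, hz'⟩
              by_cases hzc : z = c0
              · exact Or.inl hzc
              · right
                have : z ∈ U \ R := Finset.mem_sdiff.2 ⟨hz, fun h => hz' ⟨hzc, h⟩⟩
                rw [hq, Finset.mem_singleton] at this
                exact this
            · rintro (rfl | rfl)
              · exact ⟨hRU hc0.1, fun h => h.1 rfl⟩
              · exact ⟨hqU, fun h => hqR h.2⟩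
          have hcq : c0 ≠ q := fun h => hqR (h ▸ hc0.1)
          refine ⟨R.erase c0, ?_⟩
          rw [Finset.mem_filter, Finset.mem_powerset, hsd]
          refine ⟨(Finset.erase_subset _ _).trans hRU, ?_, ?_, ?_, ?_⟩
          · intro x hx y hy
            have hx' := Finset.mem_of_mem_erase hx
            have hy' := Finset.mem_of_mem_erase hy
            rw [hRdef, Finset.mem_filter] at hx' hy'
            exact hx'.2.trans hy'.2.symm
          · intro x hx y hy
            simp only [Finset.mem_insert, Finset.mem_singleton] at hx hy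
            rcases hx with rfl | rfl <;> rcases hy with rfl | rfl
            · rfl
            · exact hc0.2
            · exact hc0.2.symm
            · rfl
          · rw [Finset.card_erase_of_mem hc0.1]; omega
          · rw [Finset.card_pair hcq]
        omega
  · refine (n1_le a b U).trans (le_trans ?_ (Nat.le_add_right _ _))
    refine le_trans ?_ hprs
    rw [← hcard]
    obtain ⟨d, hd⟩ : ∃ d, R.card = d + 3 := ⟨R.card - 3, by omega⟩
    obtain ⟨s, hs2⟩ : ∃ s, (U \ R).card = s + 2 := ⟨(U \ R).card - 2, by omega⟩
    rw [hd, hs2]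
    rw [hd, hs2] at hcard
    have : d + 3 - 1 = d + 2 := by omega
    rw [this]
    nlinarith [Nat.zero_le (s * d)]

theorem prs_swap (a : α → ι) (b : α → κ) (U : Finset α) : prs b a U = prs a b U := by
  unfold prs
  ext x
  simp only [Finset.mem_filter, nst, dj]
  refine and_congr_right fun _ => ?_
  constructor <;> rintro ⟨p, hp, q, hq, h1, h2⟩ <;> exact ⟨p, hp, q, hq, h2, h1⟩

theorem n1_swap (a : α → ι) (b : α → κ) (U : Finset α) : n1 b a U = n1 a b U := by
  unfold n1
  congr 1
  ext x
  simp only [Finset.mem_filter, nst, dj]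
  refine and_congr_right fun _ => ?_
  constructor <;> rintro ⟨p, hp, q, hq, h1, h2⟩ <;> exact ⟨p, hp, q, hq, h2, h1⟩

theorem spl_swap (a : α → ι) (b : α → κ) (U : Finset α) : spl b a U ≤ spl a b U := by
  unfold spl
  refine Finset.card_le_card_of_injOn (fun R => U \ R) ?_ ?_
  · intro R hR
    simp only [Finset.coe_filter, Finset.mem_powerset, Set.mem_setOf_eq] at hR ⊢
    obtain ⟨h0, h1, h2, h3, h4⟩ := hR
    rw [Finset.sdiff_sdiff_eq_self h0]
    exact ⟨Finset.sdiff_subset, h2, h1, h4, h3⟩
  · intro R hR R' hR' h
    simp only [Finset.coe_filter, Finset.mem_powerset, Set.mem_setOf_eq] at hR hR'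
    have h' : U \ R = U \ R' := h
    rw [← Finset.sdiff_sdiff_eq_self hR.1, h', Finset.sdiff_sdiff_eq_self hR'.1]

theorem smallcase (a : α → ι) (b : α → κ) (U : Finset α) (hU : 6 ≤ U.card)
    (h1 : ∀ i, (U.filter (fun p => a p = i)).card ≤ 2)
    (h2 : ∀ j, (U.filter (fun p => b p = j)).card ≤ 2) : U.card ≤ (prs a b U).card := by
  have hdeg : ∀ p ∈ U, U.card - 3 ≤ (U.filter (fun u => dj a b p u)).card := by
    intro p hp
    have hsub : U ⊆ (U.filter (fun u => dj a b p u)) ∪ (U.filter (fun u => a u = a p)) ∪
        ((U.filter (fun u => b u = b p)).erase p) := by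
      intro x hx
      simp only [Finset.mem_union, Finset.mem_filter, Finset.mem_erase, dj]
      by_cases e1 : a x = a p
      · exact Or.inl (Or.inr ⟨hx, e1⟩)
      · by_cases e2 : b x = b p
        · right
          refine ⟨?_, hx, e2⟩
          rintro rfl; exact e1 rfl
        · left; left
          exact ⟨hx, fun h => e1 h.symm, fun h => e2 h.symm⟩
    have hc := Finset.card_le_card hsub
    have hc1 := (Finset.card_union_le ((U.filter (fun u => dj a b p u)) ∪
      (U.filter (fun u => a u = a p))) ((U.filter (fun u => b u = b p)).erase p))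
    have hc2 := (Finset.card_union_le (U.filter (fun u => dj a b p u))
      (U.filter (fun u => a u = a p)))
    have hpm : p ∈ U.filter (fun u => b u = b p) := by simp [hp]
    have hc3 := Finset.card_erase_of_mem hpm
    have := h1 (a p)
    have := h2 (b p)
    omega
  have hO : U.card * (U.card - 3) ≤ ∑ p ∈ U, (U.filter (fun u => dj a b p u)).card := by
    rw [← smul_eq_mul]
    exact Finset.card_nsmul_le_sum _ _ _ hdeg
  have hO2 : ∑ p ∈ U, (U.filter (fun u => dj a b p u)).card ≤ 2 * (prs a b U).card := by
    rw [← Finset.card_sigma]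
    set O := U.sigma (fun p => U.filter (fun u => dj a b p u)) with hOdef
    have him : O.image (fun x => ({x.1, x.2} : Finset α)) ⊆ prs a b U := by
      intro z hz
      rw [Finset.mem_image] at hz
      obtain ⟨⟨p, q⟩, hx, rfl⟩ := hz
      rw [hOdef, Finset.mem_sigma, Finset.mem_filter] at hx
      exact mem_prs a b U hx.1 hx.2.1 hx.2.2
    refine le_trans (Finset.card_le_mul_card_image (f := fun x => ({x.1, x.2} : Finset α)) O 2 ?_)
      (Nat.mul_le_mul_left 2 (Finset.card_le_card him))
    intro z hz
    rw [Finset.mem_image] at hz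
    obtain ⟨⟨p, q⟩, hx, rfl⟩ := hz
    have hsub : O.filter (fun x => ({x.1, x.2} : Finset α) = {p, q}) ⊆
        {⟨p, q⟩, ⟨q, p⟩} := by
      rintro ⟨x, y⟩ hxy
      rw [Finset.mem_filter, hOdef, Finset.mem_sigma, Finset.mem_filter] at hxy
      have hne : x ≠ y := dj_ne a b hxy.1.2.2
      have hx1 : x ∈ ({p, q} : Finset α) := by rw [← hxy.2]; simp
      have hy1 : y ∈ ({p, q} : Finset α) := by rw [← hxy.2]; simp
      simp only [Finset.mem_insert, Finset.mem_singleton] at hx1 hy1
      rw [Finset.mem_insert, Finset.mem_singleton]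
      rcases hx1 with rfl | rfl <;> rcases hy1 with rfl | rfl
      · exact absurd rfl hne
      · exact Or.inl rfl
      · exact Or.inr rfl
      · exact absurd rfl hne
    exact (Finset.card_le_card hsub).trans (Finset.card_le_two)
  have h3 : 3 * U.card ≤ U.card * (U.card - 3) := by
    rw [mul_comm 3]
    exact Nat.mul_le_mul_left _ (by omega)
  omega

theorem p2 : S_P2 := by
  intro α ι κ _ a b hI U hU
  by_cases h1 : ∃ i, 3 ≤ (U.filter (fun p => a p = i)).card
  · obtain ⟨i, hi⟩ := h1
    exact rowcase a b hI U hU i hi
  · by_cases h2 : ∃ j, 3 ≤ (U.filter (fun p => b p = j)).card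
    · obtain ⟨j, hj⟩ := h2
      have h := rowcase b a (fun p q h h' => hI p q h' h) U hU j hj
      rw [prs_swap, n1_swap] at h
      exact h.trans (Nat.add_le_add_left (spl_swap a b U) _)
    · refine (n1_le a b U).trans ((smallcase a b U hU ?_ ?_).trans (Nat.le_add_right _ _))
      · intro i
        by_contra h
        exact h1 ⟨i, by omega⟩
      · intro j
        by_contra h
        exact h2 ⟨j, by omega⟩

end Pool.Agent.W181.SC
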